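import Pool.Agent.Y671.GV.Gen

/-!
# Fine normal ultrafilters on `P_κ(κ⁺)` fail the Galvin property

Let `U` be a fine normal ultrafilter on `P_κ(X)`, `|X| = κ⁺`. Then `Gal(U, κ, κ⁺⁺)` fails, and
`Gal(U, κ, 2^(κ⁺))` fails if `2^κ = κ⁺` or `2^(κ⁺) = κ⁺⁺`. (Lemma `main` is the same for `P_κ(X)`,
`|X| = λ`, for every regular `λ > κ`.)
-/

set_option autoImplicit false

namespace Pool.Agent.Results.MP_a3089e_lc.GalvinFails

open Cardinal Set
open Pool.Agent.H348R6.GV (bdd_of_lt)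

universe u

/-- `P_κ(X)`: the subsets of `X` of size less than `κ`. -/
abbrev Pk (κ : Cardinal.{u}) (X : Type u) : Type u := {x : Set X // #x < κ}

/-- `U` is a fine normal ultrafilter over `P_κ(X)`: it is `κ`-complete, fine and normal. -/
structure FineNormal (κ : Cardinal.{u}) (X : Type u) (U : Ultrafilter (Pk κ X)) : Prop where
  complete : ∀ S : Set (Set (Pk κ X)), #S < κ → (∀ s ∈ S, s ∈ U) → ⋂₀ S ∈ U
  fine : ∀ a : X, {x : Pk κ X | a ∈ x.1} ∈ U
  normal : ∀ f : Pk κ X → X, {x : Pk κ X | f x ∈ x.1} ∈ U →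
    ∃ a : X, {x : Pk κ X | f x = a} ∈ U

/-- `Gal(U, μ, θ)`: among any `θ` distinct members of `U` there are `μ` whose intersection is a
member of `U`. -/
def Gal {Y : Type u} (U : Ultrafilter Y) (μ θ : Cardinal.{u}) : Prop :=
  ∀ S : Set (Set Y), (∀ s ∈ S, s ∈ U) → #S = θ → ∃ T ⊆ S, #T = μ ∧ ⋂₀ T ∈ U

section

variable {κ : Cardinal.{u}} {X : Type u} {U : Ultrafilter (Pk κ X)}

/-- The sets closed under `f`. -/
def Cl (κ : Cardinal.{u}) {X : Type u} (f : X → X) : Set (Pk κ X) :=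
  {x | ∀ a ∈ x.1, f a ∈ x.1}

theorem cl_mem (hU : FineNormal κ X U) (f : X → X) : Cl κ f ∈ U := by
  classical
  by_contra h
  have h1 := Ultrafilter.compl_mem_iff_notMem.2 h
  have hex : ∀ x : Pk κ X, x ∈ (Cl κ f)ᶜ → ∃ a ∈ x.1, f a ∉ x.1 := by
    intro x hx
    by_contra hc
    push Not at hc
    exact hx hc
  obtain ⟨x0, hx0⟩ := Ultrafilter.nonempty_of_mem h1
  obtain ⟨a0, _, _⟩ := hex x0 hx0
  have : Nonempty X := ⟨a0⟩
  choose! g hg using hex
  have h2 : {x : Pk κ X | g x ∈ x.1} ∈ U :=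
    Filter.mem_of_superset h1 fun x hx => (hg x hx).1
  obtain ⟨a, ha⟩ := hU.normal g h2
  have h3 := hU.fine (f a)
  obtain ⟨x, ⟨hx1, hx2⟩, hx3⟩ :=
    Ultrafilter.nonempty_of_mem (Filter.inter_mem (Filter.inter_mem h1 ha) h3)
  have h4 := (hg x hx1).2
  have h5 : g x = a := hx2
  rw [h5] at h4
  exact h4 hx3

/-- The criterion. -/
theorem crit (hκ : ℵ₀ ≤ κ) (hU : FineNormal κ X U) {Λ : Type u} (hΛ : κ < #Λ)
    (h : Λ → X → X)
    (hh : ∀ I : Set Λ, #I = κ → ∃ a, κ ≤ #((fun i => h i a) '' I)) : ¬ Gal U κ #Λ := by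
  classical
  have key : ∀ I : Set Λ, #I = κ → (⋂ i ∈ I, Cl κ (h i)) ∉ U := by
    intro I hI hmem
    obtain ⟨a, ha⟩ := hh I hI
    obtain ⟨x, hx1, hx2⟩ := Ultrafilter.nonempty_of_mem (Filter.inter_mem hmem (hU.fine a))
    have hsub : (fun i => h i a) '' I ⊆ x.1 := by
      rintro _ ⟨i, hi, rfl⟩
      exact (mem_iInter₂.1 hx1 i hi) a hx2
    exact absurd ((ha.trans (mk_le_mk_of_subset hsub)).trans_lt x.2) (lt_irrefl _)
  -- the fibres of `i ↦ Cl κ (h i)` have size `< κ`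
  have hfib : ∀ i : Λ, #{j : Λ | Cl κ (h j) = Cl κ (h i)} < κ := by
    intro i
    by_contra hcon
    push Not at hcon
    obtain ⟨I, hI1, hI2⟩ := Cardinal.le_mk_iff_exists_subset.1 hcon
    refine key I hI2 (Filter.mem_of_superset (cl_mem hU (h i)) ?_)
    intro x hx
    refine mem_iInter₂.2 fun j hj => ?_
    have h3 : Cl κ (h j) = Cl κ (h i) := hI1 hj
    rw [h3]
    exact hx
  intro hG
  set S : Set (Set (Pk κ X)) := range fun i => Cl κ (h i) with hS
  have hScard : #S = #Λ := by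
    refine le_antisymm mk_range_le ?_
    by_contra hcon
    push Not at hcon
    have h1 : #Λ ≤ #S * κ := by
      have h2 : #Λ = Cardinal.sum fun s : S => #((fun i => (⟨Cl κ (h i), mem_range_self i⟩ : S)) ⁻¹' {s}) := by
        rw [← mk_sigma]
        exact (mk_congr (Equiv.sigmaFiberEquiv (fun i => (⟨Cl κ (h i), mem_range_self i⟩ : S)))).symm
      rw [h2]
      refine (sum_le_sum _ (fun _ => κ) ?_).trans ?_
      · rintro ⟨s, i, rfl⟩
        refine le_trans (mk_le_mk_of_subset ?_) (hfib i).le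
        intro j hj
        have := congrArg Subtype.val hj
        exact this
      · simp
    have h3 : #S * κ < #Λ := mul_lt_of_lt (hκ.trans hΛ.le) hcon hΛ
    exact absurd (h1.trans_lt h3) (lt_irrefl _)
  obtain ⟨T, hT1, hT2, hT3⟩ := hG S (by
    rintro _ ⟨i, rfl⟩
    exact cl_mem hU _) hScard
  have hch : ∀ t : T, ∃ i, Cl κ (h i) = t.1 := fun t => hT1 t.2
  choose c hc using hch
  have hcinj : Function.Injective c := fun s t hst => Subtype.ext (by rw [← hc s, ← hc t, hst])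
  refine key (range c) ((mk_range_eq c hcinj).trans hT2) (Filter.mem_of_superset hT3 ?_)
  intro x hx
  refine mem_iInter₂.2 ?_
  rintro _ ⟨t, rfl⟩
  rw [hc t]
  exact hx _ t.2

/-- Pairwise eventually different functions on a regular cardinal `lam > κ` satisfy the
criterion. -/
theorem evdiff {lam : Cardinal.{u}} (hlam : lam.IsRegular) (hκl : κ < lam) (hκ : ℵ₀ ≤ κ)
    (hX : #X = lam) (hU : FineNormal κ X U) {Λ : Type u} (hΛ : κ < #Λ)
    (h : Λ → lam.ord.ToType → lam.ord.ToType)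
    (hh : ∀ i j, i ≠ j → ∃ b, ∀ a, b ≤ a → h i a ≠ h j a) : ¬ Gal U κ #Λ := by
  classical
  have he : #X = #(lam.ord.ToType) := by rw [hX, Cardinal.mk_toType, card_ord]
  obtain ⟨e⟩ := Cardinal.eq.1 he
  refine crit hκ hU hΛ (fun i a => e.symm (h i (e a))) fun I hI => ?_
  have hb : ∀ p : I × I, ∃ b : lam.ord.ToType, p.1 ≠ p.2 →
      ∀ a, b ≤ a → h p.1 a ≠ h p.2 a := by
    intro p
    by_cases hp : p.1 = p.2
    · obtain ⟨b⟩ := Pool.Agent.H348R6.GV.nonempty_toType hlam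
      exact ⟨b, fun hne => absurd hp hne⟩
    · obtain ⟨b, hb⟩ := hh p.1 p.2 (fun hc => hp (Subtype.ext hc))
      exact ⟨b, fun _ => hb⟩
  choose b hb using hb
  obtain ⟨d, hd⟩ := bdd_of_lt hlam b (by
    simp only [mk_prod, lift_id, hI]
    rwa [mul_eq_self hκ])
  refine ⟨e.symm d, ?_⟩
  rw [← hI]
  refine (mk_image_eq_of_injOn _ _ ?_).ge
  intro i hi j hj hij
  by_contra hne
  have h1 := hb (⟨i, hi⟩, ⟨j, hj⟩) (fun hc => hne (congrArg Subtype.val hc)) d (hd _).le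
  apply h1
  have h2 := e.symm.injective hij
  simpa using h2

theorem main {lam : Cardinal.{u}} (hlam : lam.IsRegular) (hκl : κ < lam) (hκ : ℵ₀ ≤ κ)
    (hX : #X = lam) (hU : FineNormal κ X U) :
    ¬ Gal U κ (Order.succ lam) ∧ (lam ^< lam = lam → ¬ Gal U κ (2 ^ lam)) := by
  constructor
  · obtain ⟨h, hh⟩ := Pool.Agent.Y671.GV.evdiff_succ hlam
    have h1 : #((Order.succ lam).ord.ToType) = Order.succ lam := by
      rw [Cardinal.mk_toType, card_ord]
    have h2 := evdiff hlam hκl hκ hX hU (Λ := (Order.succ lam).ord.ToType)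
      (by rw [h1]; exact hκl.trans (Order.lt_succ _)) h hh
    rwa [h1] at h2
  · intro hp
    obtain ⟨h, hh⟩ := Pool.Agent.Y671.GV.evdiff_two hlam hp
    have h1 : #(Set lam.ord.ToType) = 2 ^ lam := by
      rw [mk_set, Cardinal.mk_toType, card_ord]
    have h2 := evdiff hlam hκl hκ hX hU (Λ := Set lam.ord.ToType)
      (by rw [h1]; exact hκl.trans (cantor _)) h hh
    rwa [h1] at h2

theorem powerlt_succ_eq (hκ : ℵ₀ ≤ κ) (h : (2 : Cardinal.{u}) ^ κ = Order.succ κ) :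
    Order.succ κ ^< Order.succ κ = Order.succ κ := by
  apply le_antisymm
  · rw [powerlt_le]
    intro c hc
    have hc' : c ≤ κ := Order.lt_succ_iff.1 hc
    calc Order.succ κ ^ c ≤ Order.succ κ ^ κ :=
          power_le_power_left (Order.succ_ne_bot κ) hc'
      _ = (2 ^ κ) ^ κ := by rw [h]
      _ = 2 ^ κ := by rw [← power_mul, mul_eq_self hκ]
      _ = Order.succ κ := h
  · have h1 : (1 : Cardinal.{u}) < Order.succ κ :=
      one_lt_aleph0.trans_le (hκ.trans (Order.le_succ κ))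
    have := le_powerlt (Order.succ κ) h1
    rwa [power_one] at this

end

/-- **Main theorem.** Let `κ` be uncountable and let `U` be a fine normal ultrafilter over
`P_κ(X)`, where `|X| = κ⁺`. Then `Gal(U, κ, κ⁺⁺)` fails. If moreover `2^κ = κ⁺` or
`2^(κ⁺) = κ⁺⁺`, then `Gal(U, κ, 2^(κ⁺))` fails. -/
theorem result (κ : Cardinal.{u}) (hκ : ℵ₀ < κ) (X : Type u) (hX : #X = Order.succ κ)
    (U : Ultrafilter (Pk κ X)) (hU : FineNormal κ X U) :
    ¬ Gal U κ (Order.succ (Order.succ κ)) ∧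
    ((2 : Cardinal.{u}) ^ κ = Order.succ κ ∨
      (2 : Cardinal.{u}) ^ Order.succ κ = Order.succ (Order.succ κ) →
        ¬ Gal U κ (2 ^ Order.succ κ)) := by
  obtain ⟨h1, h2⟩ := main (isRegular_succ hκ.le) (Order.lt_succ κ) hκ.le hX hU
  refine ⟨h1, fun h => ?_⟩
  rcases h with h | h
  · exact h2 (powerlt_succ_eq hκ.le h)
  · rw [h]
    exact h1

end Pool.Agent.Results.MP_a3089e_lc.GalvinFails
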